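import Mathlib

/-! # The Brandt monoid and transfer of colours

Words in the variables `0, 1, 2, …` are lists of natural numbers. -/

namespace Pool.Agent.Q15.BM

/-- The six-element Brandt monoid: the `2 × 2` matrix units, a zero and an identity element. -/
inductive B21 : Type
  | one : B21
  | zero : B21
  | e : Bool → Bool → B21
  deriving DecidableEq

namespace B21

/-- multiplication of matrix units -/
def mul : B21 → B21 → B21
  | one, x => x
  | zero, _ => zero
  | e i j, one => e i j
  | e _ _, zero => zero
  | e i j, e k l => if j = k then e i l else zero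

/-- the meet of the natural order -/
def add : B21 → B21 → B21
  | one, one => one
  | one, e i j => if i = j then e i j else zero
  | one, zero => zero
  | e i j, one => if i = j then e i j else zero
  | e i j, e k l => if i = k ∧ j = l then e i j else zero
  | e _ _, zero => zero
  | zero, _ => zero

instance : Mul B21 := ⟨mul⟩
instance : Add B21 := ⟨add⟩

theorem mul_def (x y : B21) : x * y = mul x y := rfl
theorem add_def (x y : B21) : x + y = add x y := rfl

end B21

/-- the value of a word -/
def pe {M : Type} [Mul M] (u : M) (h : ℕ → M) : List ℕ → M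
  | [] => u
  | x :: l => h x * pe u h l

/-- the inequality `Σ I ≤ q` in `B_2^1`, for the natural order -/
def Hyp (I : List (List ℕ)) (q : List ℕ) : Prop :=
  ∀ (h : ℕ → B21) (z : B21), (∀ p ∈ I, z + pe B21.one h p = z) → z + pe B21.one h q = z

/-- reading a word with colours -/
def Run {K : Type} (D : ℕ → Prop) (s t : ℕ → K) : K → List ℕ → K → Prop
  | i, [], j => i = j
  | i, x :: l, j => (D x ∧ Run D s t i l j) ∨ (¬ D x ∧ i = s x ∧ Run D s t (t x) l j)

open Classical in
/-- the valuation in `B_2^1` -/
noncomputable def hv (D : ℕ → Prop) (s t : ℕ → Bool) (x : ℕ) : B21 :=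
  if D x then B21.one else B21.e (s x) (t x)

/-- the relation `e i j ≤ y` -/
def Le (i j : Bool) (y : B21) : Prop := B21.e i j + y = B21.e i j

theorem le_cases (i j : Bool) (y : B21) :
    Le i j y ↔ (y = B21.one ∧ i = j) ∨ y = B21.e i j := by
  unfold Le
  rw [B21.add_def]
  cases y with
  | one => 
    simp only [B21.add]
    by_cases h : i = j <;> simp [h]
  | zero => simp [B21.add]
  | e k l =>
    simp only [B21.add]
    by_cases h : i = k ∧ j = l
    · obtain ⟨rfl, rfl⟩ := h
      simp
    · simp only [if_neg h]
      constructor
      · intro h2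
        cases h2
      · rintro (⟨h2, -⟩ | h2)
        · cases h2
        · simp only [B21.e.injEq] at h2
          exact absurd ⟨h2.1.symm, h2.2.symm⟩ h

theorem le_one_iff (i j : Bool) : Le i j B21.one ↔ i = j := by
  rw [le_cases]
  simp

theorem le_mul (i j k l : Bool) (y : B21) :
    Le i j (B21.e k l * y) ↔ i = k ∧ Le l j y := by
  rw [le_cases, le_cases, B21.mul_def]
  cases y with
  | one => 
    simp only [B21.mul]
    constructor
    · rintro (⟨h, -⟩ | h)
      · cases h
      · simp only [B21.e.injEq] at h
        exact ⟨h.1.symm, Or.inl ⟨trivial, h.2⟩⟩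
    · rintro ⟨h, (⟨-, h2⟩ | h2)⟩
      · subst h h2
        right; rfl
      · cases h2
  | zero => simp [B21.mul]
  | e m o =>
    simp only [B21.mul]
    by_cases h : l = m
    · subst h
      simp only [if_true]
      constructor
      · rintro (⟨h, -⟩ | h)
        · cases h
        · simp only [B21.e.injEq] at h
          exact ⟨h.1.symm, Or.inr (by rw [h.2])⟩
      · rintro ⟨h, (⟨h2, -⟩ | h2)⟩
        · cases h2
        · simp only [B21.e.injEq] at h2
          subst h
          right
          rw [h2.2]
    · simp only [if_neg h]
      constructor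
      · rintro (⟨h, -⟩ | h) <;> cases h
      · rintro ⟨-, (⟨h2, -⟩ | h2)⟩
        · cases h2
        · simp only [B21.e.injEq] at h2
          exact absurd h2.1.symm h

theorem run_bool (D : ℕ → Prop) (s t : ℕ → Bool) (l : List ℕ) : ∀ i j : Bool,
    Run D s t i l j ↔ Le i j (pe B21.one (hv D s t) l) := by
  induction l with
  | nil => 
    intro i j
    simp only [Run, pe]
    rw [le_one_iff]
  | cons x l ih =>
    intro i j
    simp only [Run, pe]
    by_cases hD : D x
    · have : hv D s t x = B21.one := by simp [hv, hD]
      rw [this]
      have e : B21.one * pe B21.one (hv D s t) l = pe B21.one (hv D s t) l := rfl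
      rw [e]
      simp only [hD, not_true_eq_false, false_and, or_false, true_and]
      exact ih i j
    · have : hv D s t x = B21.e (s x) (t x) := by simp [hv, hD]
      rw [this, le_mul]
      simp only [hD, not_false_eq_true, false_and, false_or, true_and]
      rw [ih (t x) j]

theorem run_map {K L : Type} (χ : K → L) (D : ℕ → Prop) (s t : ℕ → K) (l : List ℕ) :
    ∀ i j : K, Run D s t i l j → Run D (fun x => χ (s x)) (fun x => χ (t x)) (χ i) l (χ j) := by
  induction l with
  | nil => intro i j h; simp only [Run] at h ⊢; rw [h]
  | cons x l ih =>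
    intro i j h
    simp only [Run] at h ⊢
    rcases h with ⟨h1, h2⟩ | ⟨h1, h2, h3⟩
    · exact Or.inl ⟨h1, ih _ _ h2⟩
    · exact Or.inr ⟨h1, by rw [h2], ih _ _ h3⟩

theorem run_of_bool {K : Type} (D : ℕ → Prop) (s t : ℕ → K) (l : List ℕ) :
    ∀ i j : K, (∀ χ : K → Bool, Run D (fun x => χ (s x)) (fun x => χ (t x)) (χ i) l (χ j)) →
      Run D s t i l j := by
  classical
  induction l with
  | nil => 
    intro i j h
    have := h (fun k => decide (k = j))
    simp only [Run] at this ⊢
    simpa using this
  | cons x l ih =>
    intro i j h
    by_cases hD : D x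
    · refine Or.inl ⟨hD, ih i j fun χ => ?_⟩
      rcases h χ with h1 | h1
      · exact h1.2
      · exact absurd hD h1.1
    · refine Or.inr ⟨hD, ?_, ih (t x) j fun χ => ?_⟩
      · rcases h (fun k => decide (k = s x)) with h1 | h1
        · exact absurd h1.1 hD
        · simpa using h1.2.1
      · rcases h χ with h1 | h1
        · exact absurd h1.1 hD
        · exact h1.2.2

/-- **Transfer of colours.** -/
theorem transfer {I : List (List ℕ)} {q : List ℕ} (H : Hyp I q) {K : Type} (D : ℕ → Prop)
    (s t : ℕ → K) (i j : K) (h : ∀ p ∈ I, Run D s t i p j) : Run D s t i q j := by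
  apply run_of_bool
  intro χ
  rw [run_bool]
  apply H
  intro p hp
  exact (run_bool D _ _ p _ _).1 (run_map χ D s t p i j (h p hp))

theorem mem_of_hyp {I : List (List ℕ)} {q : List ℕ} (H : Hyp I q) (x : ℕ) (hx : x ∈ q) :
    ∃ p ∈ I, x ∈ p := by
  classical
  by_contra hcon
  push Not at hcon
  have key : ∀ l : List ℕ, pe B21.one (fun y => if y = x then B21.zero else B21.one) l
      = if x ∈ l then B21.zero else B21.one := by
    intro l
    induction l with
    | nil => simp [pe]
    | cons y l ih =>
      simp only [pe]
      rw [ih]
      by_cases hy : y = x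
      · subst hy
        simp only [if_true, List.mem_cons, true_or]
        rfl
      · have hy' : ¬ x = y := fun h => hy h.symm
        simp only [if_neg hy, List.mem_cons, hy', false_or]
        rfl
  have h := H (fun y => if y = x then B21.zero else B21.one) B21.one (by
    intro p hp
    rw [key p, if_neg (hcon p hp)]
    rfl)
  rw [key q, if_pos hx] at h
  exact absurd h (by decide)

end Pool.Agent.Q15.BM
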