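import Pool.Agent.Q15.BM.A1

/-! # The infinite word -/

namespace Pool.Agent.Q15.BM

/-- the first coordinate of the `k`-th letter of the infinite word with rows of length `r` -/
def aa (r : ℕ) (k : ℕ) : ℕ :=
  if h : k = 0 ∨ r ≤ 1 then 0
  else if (k % r) % 2 = 0 then aa r (k / r) else (k / r) % r
termination_by k
decreasing_by
  push Not at h
  exact Nat.div_lt_self (Nat.pos_of_ne_zero h.1) h.2

/-- the `k`-th letter -/
def U (r k : ℕ) : ℕ × ℕ := (aa r k, k % r)

/-- the coordinate of a letter used in column `c` of its row -/
def kap (c : ℕ) (u : ℕ × ℕ) : ℕ := if c % 2 = 0 then u.1 else u.2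

theorem aa_eq {r : ℕ} (hr : 2 ≤ r) (k : ℕ) : aa r k = kap (k % r) (U r (k / r)) := by
  by_cases h : k = 0
  · subst h
    rw [aa]
    simp [kap, U]
    rw [aa]
    simp
  · rw [aa]
    rw [dif_neg (by push Not; exact ⟨h, by omega⟩)]
    simp only [kap, U]

theorem aa_lt {r : ℕ} (hr : 2 ≤ r) (k : ℕ) : aa r k < r := by
  induction k using Nat.strong_induction_on with
  | _ k ih =>
    by_cases h : k = 0
    · subst h
      rw [aa]
      simp
      omega
    · rw [aa_eq hr, kap]
      split_ifs
      · exact ih _ (Nat.div_lt_self (Nat.pos_of_ne_zero h) (by omega))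
      · exact Nat.mod_lt _ (by omega)

theorem kap_inj {j : ℕ} {u v : ℕ × ℕ} (h1 : kap j u = kap j v) (h2 : kap (j + 1) u = kap (j + 1) v) :
    u = v := by
  unfold kap at h1 h2
  rcases Nat.mod_two_eq_zero_or_one j with h | h
  · rw [if_pos h, if_pos h] at h1
    rw [if_neg (by omega), if_neg (by omega)] at h2
    exact Prod.ext h1 h2
  · rw [if_neg (by omega), if_neg (by omega)] at h1
    rw [if_pos (by omega), if_pos (by omega)] at h2
    exact Prod.ext h2 h1

theorem wb {r k d : ℕ} (h : k % r + d < r) : (k + d) % r = k % r + d ∧ (k + d) / r = k / r := by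
  have h0 : k + d = (k % r + d) + r * (k / r) := by
    have := Nat.mod_add_div k r
    omega
  constructor
  · rw [h0, Nat.add_mul_mod_self_left, Nat.mod_eq_of_lt h]
  · rw [h0, Nat.add_mul_div_left _ _ (by omega), Nat.div_eq_of_lt h, Nat.zero_add]

/-- `k` is reached from `K = k + d` by going back `d` steps inside a block -/
theorem wb' {r k d : ℕ} (hr : 0 < r) (h : d ≤ (k + d) % r) :
    k % r = (k + d) % r - d ∧ k / r = (k + d) / r := by
  have h1 := Nat.mod_lt (k + d) hr
  have h0 : k = ((k + d) % r - d) + r * ((k + d) / r) := by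
    have := Nat.mod_add_div (k + d) r
    omega
  constructor
  · conv_lhs => rw [h0]
    rw [Nat.add_mul_mod_self_left, Nat.mod_eq_of_lt (by omega)]
  · conv_lhs => rw [h0]
    rw [Nat.add_mul_div_left _ _ hr, Nat.div_eq_of_lt (by omega), Nat.zero_add]

theorem mod_shift {r k o : ℕ} (h : k % r = o % r) (d : ℕ) : (k + d) % r = (o + d) % r := by
  rw [Nat.add_mod, h, ← Nat.add_mod]

/-- factors of the infinite word -/
def seg (r k m : ℕ) : List (ℕ × ℕ) := (List.range m).map fun i => U r (k + i)

@[simp] theorem seg_length (r k m : ℕ) : (seg r k m).length = m := by simp [seg]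

@[simp] theorem seg_zero (r k : ℕ) : seg r k 0 = [] := by simp [seg]

theorem seg_add (r k m n : ℕ) : seg r k (m + n) = seg r k m ++ seg r (k + m) n := by
  unfold seg
  rw [List.range_add, List.map_append, List.map_map]
  congr 1
  apply List.map_congr_left
  intro i _
  simp [Nat.add_assoc]

theorem seg_eq_iff (r k k' m : ℕ) : seg r k m = seg r k' m ↔ ∀ d < m, U r (k + d) = U r (k' + d) := by
  unfold seg
  constructor
  · intro h d hd
    have := congrArg (fun l => l[d]?) h
    simpa [hd] using this
  · intro h
    apply List.map_congr_left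
    intro i hi
    exact h i (List.mem_range.1 hi)

theorem seg_split {r a ℓ : ℕ} {w w' : List (ℕ × ℕ)} (h : w ++ w' = seg r a ℓ) :
    w = seg r a w.length ∧ w' = seg r (a + w.length) w'.length ∧ ℓ = w.length + w'.length := by
  have hl : ℓ = w.length + w'.length := by
    have := congrArg List.length h
    simp at this
    omega
  rw [hl, seg_add] at h
  have := List.append_inj h (by simp)
  exact ⟨this.1, this.2, hl⟩

theorem mod_of_seg {r k k' m : ℕ} (hm : 0 < m) (h : seg r k m = seg r k' m) : k % r = k' % r := by
  have := (seg_eq_iff r k k' m).1 h 0 hm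
  simpa [U] using congrArg Prod.snd this

/-- the number of positions before `k` which are in column `j` -/
def bt (r j k : ℕ) : ℕ := (k + (r - 1 - j)) / r

theorem bt_succ {r j : ℕ} (hj : j < r) (k : ℕ) :
    bt r j (k + 1) = bt r j k + (if k % r = j then 1 else 0) ∧ (k % r = j → bt r j k = k / r) := by
  have hr : 0 < r := by omega
  have hlt := Nat.mod_lt k hr
  have hk := Nat.mod_add_div k r
  have key : ∀ x : ℕ, x < r → (x + (r - 1 - j) + r * (k / r)) / r =
      (if x ≤ j then 0 else 1) + k / r := by
    intro x hx
    rw [Nat.add_mul_div_left _ _ hr]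
    congr 1
    split_ifs with h
    · exact Nat.div_eq_of_lt (by omega)
    · exact Nat.div_eq_of_lt_le (by omega) (by omega)
  have e0 : bt r j k = (if k % r ≤ j then 0 else 1) + k / r := by
    unfold bt
    rw [← key _ hlt]
    congr 1
    omega
  have e1 : bt r j (k + 1) = (if k % r + 1 ≤ j then 0 else 1) + k / r := by
    by_cases h : k % r + 1 < r
    · unfold bt
      rw [← key _ h]
      congr 1
      omega
    · unfold bt
      rw [if_neg (by omega)]
      have : k + 1 + (r - 1 - j) = (r - 1 - j) + r * (1 + k / r) := by
        rw [Nat.mul_add]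
        omega
      rw [this, Nat.add_mul_div_left _ _ hr, Nat.div_eq_of_lt (by omega)]
      omega
  rw [e0, e1]
  constructor
  · split_ifs <;> omega
  · intro h
    rw [if_pos (by omega)]
    omega

/-- the labels of the blocks whose column `j` lies in the factor -/
def desc (r j k m : ℕ) : List (ℕ × ℕ) :=
  (List.range m).flatMap fun d => if (k + d) % r = j then [U r ((k + d) / r)] else []

@[simp] theorem desc_zero (r j k : ℕ) : desc r j k 0 = [] := by simp [desc]

theorem desc_succ (r j k m : ℕ) : desc r j k (m + 1) = desc r j k m ++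
    (if (k + m) % r = j then [U r ((k + m) / r)] else []) := by
  unfold desc
  rw [List.range_succ, List.flatMap_append]
  simp

theorem bt_mono (r j k m : ℕ) : bt r j k ≤ bt r j (k + m) :=
  Nat.div_le_div_right (by omega)

theorem desc_eq_seg {r j : ℕ} (hj : j < r) (k m : ℕ) :
    desc r j k m = seg r (bt r j k) (bt r j (k + m) - bt r j k) := by
  induction m with
  | zero => simp
  | succ m ih =>
    rw [desc_succ, ih]
    obtain ⟨h1, h2⟩ := bt_succ hj (k + m)
    have hm := bt_mono r j k m
    rw [show k + (m + 1) = k + m + 1 from by omega, h1]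
    split_ifs with h
    · rw [show bt r j (k + m) + 1 - bt r j k = (bt r j (k + m) - bt r j k) + 1 from by omega, seg_add]
      congr 1
      rw [show bt r j k + (bt r j (k + m) - bt r j k) = bt r j (k + m) from by omega, h2 h]
      simp [seg]
    · simp

theorem desc_add (r j k m n : ℕ) : desc r j k (m + n) = desc r j k m ++ desc r j (k + m) n := by
  induction n with
  | zero => simp
  | succ n ih =>
    rw [← Nat.add_assoc, desc_succ, desc_succ, ih, List.append_assoc, Nat.add_assoc]

/-- equal residues and equal labels give equal lists of labels -/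
theorem desc_congr {r j k k' : ℕ} (h : k % r = k' % r) (m : ℕ)
    (h2 : ∀ d < m, (k + d) % r = j → U r ((k + d) / r) = U r ((k' + d) / r)) :
    desc r j k m = desc r j k' m := by
  unfold desc
  apply List.flatMap_congr
  intro d hd
  have hd := List.mem_range.1 hd
  rw [mod_shift h d]
  split_ifs with h3
  · rw [h2 d hd (by rw [mod_shift h d]; exact h3)]
  · rfl

theorem desc_length {r j k k' : ℕ} (h : k % r = k' % r) (m : ℕ) :
    (desc r j k m).length = (desc r j k' m).length := by
  induction m with
  | zero => simp
  | succ m ih =>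
    rw [desc_succ, desc_succ, List.length_append, List.length_append, ih, mod_shift h m]
    split_ifs <;> simp

theorem agree_of_desc {r j k k' : ℕ} (h : k % r = k' % r) (m : ℕ)
    (h2 : desc r j k m = desc r j k' m) :
    ∀ d < m, (k + d) % r = j → U r ((k + d) / r) = U r ((k' + d) / r) := by
  induction m with
  | zero => intro d hd; omega
  | succ m ih =>
    rw [desc_succ, desc_succ] at h2
    obtain ⟨h3, h4⟩ := List.append_inj h2 (desc_length h m)
    intro d hd hdj
    rcases Nat.lt_succ_iff_lt_or_eq.1 hd with h5 | h5
    · exact ih h3 d h5 hdj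
    · subst h5
      rw [if_pos hdj, if_pos (by rw [← mod_shift h d]; exact hdj)] at h4
      simpa using h4

/-- the last position of a factor which does not end just after column `j` is not in column `j` -/
theorem desc_length_lt {r j k m : ℕ} (hj : j + 1 < r) (hm : 0 < m) (h : (k + m) % r ≠ j + 1) :
    (desc r j k m).length < m := by
  have le : ∀ n, (desc r j k n).length ≤ n := by
    intro n
    induction n with
    | zero => simp
    | succ n ih =>
      rw [desc_succ, List.length_append]
      split_ifs <;> simp <;> omega
  obtain ⟨n, rfl⟩ : ∃ n, m = n + 1 := ⟨m - 1, by omega⟩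
  rw [desc_succ, if_neg]
  · have := le n
    simp
    omega
  · intro h2
    have := (wb (r := r) (k := k + n) (d := 1) (by omega)).1
    apply h
    rw [← Nat.add_assoc, this, h2]

end Pool.Agent.Q15.BM
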