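import Pool.Agent.Q15.BM.A2

/-! # Colours of junctions -/

namespace Pool.Agent.Q15.BM

/-- equality of the labels of the blocks whose column `j` is met -/
def Lab (r j o k m : ℕ) : Prop :=
  ∀ d < m, (k + d) % r = j → U r ((o + d) / r) = U r ((k + d) / r)

theorem lab_of_seg {r j o k m : ℕ} (hj : j + 1 < r) (hcut : 0 < m → (k + m) % r ≠ j + 1)
    (h : seg r o m = seg r k m) : Lab r j o k m := by
  intro d hd hdj
  have hmod : o % r = k % r := mod_of_seg (by omega) h
  have h' := (seg_eq_iff r o k m).1 h
  have w1 := wb (r := r) (k := k + d) (d := 1) (by omega)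
  have hd1 : d + 1 < m := by
    rcases Nat.lt_or_ge (d + 1) m with h1 | h1
    · exact h1
    · exfalso
      have : m = d + 1 := by omega
      subst this
      apply hcut (by omega)
      rw [← Nat.add_assoc, w1.1, hdj]
  have od := mod_shift hmod d
  have w2 := wb (r := r) (k := o + d) (d := 1) (by omega)
  have e1 := congrArg Prod.fst (h' d hd)
  have e2 := congrArg Prod.fst (h' (d + 1) hd1)
  simp only [U] at e1 e2
  rw [aa_eq (by omega), aa_eq (by omega) (k + d), od, hdj] at e1
  rw [← Nat.add_assoc, ← Nat.add_assoc, aa_eq (by omega), aa_eq (by omega) (k + d + 1), w1.1, w2.1,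
    w1.2, w2.2, od, hdj] at e2
  exact kap_inj e1 e2

/-- the colour of a cut between the pair of columns `j`, `j+1` and a later column `c` -/
def colU (r j c k : ℕ) : Option ℕ :=
  if j + 2 ≤ k % r ∧ k % r ≤ c then some (kap c (U r (k / r))) else none

/-- the colour of a cut between a column `c` and the later pair of columns `j`, `j+1` -/
def colD (r j c k : ℕ) : Option ℕ :=
  if c < k % r ∧ k % r ≤ j then some (kap c (U r (k / r))) else none

theorem colU_D {r j c k m : ℕ} (hjc : j + 1 < c) (hc : c < r) (hcut : 0 < m → k % r ≠ j + 1)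
    (hD : ∀ d < m, (k + d) % r ≠ c ∧ (k + d) % r ≠ j) : colU r j c (k + m) = colU r j c k := by
  rcases Nat.eq_zero_or_pos m with hm | hm
  · subst hm; rfl
  by_cases h : j + 2 ≤ k % r ∧ k % r ≤ c
  · have hmc : m ≤ c - k % r := by
      by_contra hcon
      have := wb (r := r) (k := k) (d := c - k % r) (by omega)
      exact (hD (c - k % r) (by omega)).1 (by omega)
    have := wb (r := r) (k := k) (d := m) (by omega)
    unfold colU
    rw [if_pos h, if_pos (by omega), this.2]
  · by_cases h2 : j + 2 ≤ (k + m) % r ∧ (k + m) % r ≤ c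
    · exfalso
      have hme : m < (k + m) % r - j := by
        by_contra hcon
        obtain ⟨d, hd⟩ : ∃ d, m = d + ((k + m) % r - j) := ⟨m - ((k + m) % r - j), by omega⟩
        have := (wb' (r := r) (k := k + d) (d := (k + m) % r - j) (by omega) (by
          rw [Nat.add_assoc, ← hd]; omega)).1
        rw [Nat.add_assoc, ← hd] at this
        exact (hD d (by omega)).2 (by omega)
      have := (wb' (r := r) (k := k) (d := m) (by omega) (by omega)).1
      exact h ⟨by have := hcut hm; omega, by omega⟩
    · unfold colU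
      rw [if_neg h, if_neg h2]

theorem colD_D {r j c k m : ℕ} (hjc : c < j) (hc : j + 1 < r)
    (hD : ∀ d < m, (k + d) % r ≠ c ∧ (k + d) % r ≠ j) : colD r j c (k + m) = colD r j c k := by
  rcases Nat.eq_zero_or_pos m with hm | hm
  · subst hm; rfl
  by_cases h : c < k % r ∧ k % r ≤ j
  · have hmc : m ≤ j - k % r := by
      by_contra hcon
      have := wb (r := r) (k := k) (d := j - k % r) (by omega)
      exact (hD (j - k % r) (by omega)).2 (by omega)
    have := wb (r := r) (k := k) (d := m) (by omega)
    unfold colD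
    rw [if_pos h, if_pos (by omega), this.2]
  · by_cases h2 : c < (k + m) % r ∧ (k + m) % r ≤ j
    · exfalso
      have hme : m < (k + m) % r - c := by
        by_contra hcon
        obtain ⟨d, hd⟩ : ∃ d, m = d + ((k + m) % r - c) := ⟨m - ((k + m) % r - c), by omega⟩
        have := (wb' (r := r) (k := k + d) (d := (k + m) % r - c) (by omega) (by
          rw [Nat.add_assoc, ← hd]; omega)).1
        rw [Nat.add_assoc, ← hd] at this
        exact (hD d (by omega)).1 (by omega)
      have := (wb' (r := r) (k := k) (d := m) (by omega) (by omega)).1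
      exact h ⟨by omega, by omega⟩
    · unfold colD
      rw [if_neg h, if_neg h2]

/-- start colours, case `c > j + 1`: letters decide -/
theorem colU_start {r j c o k m : ℕ} (hjc : j + 1 < c) (hc : c < r) (hmod : o % r = k % r)
    (hN : ∃ d < m, (k + d) % r = c ∨ (k + d) % r = j)
    (h : ∀ d < m, (k + d) % r = c → aa r (o + d) = aa r (k + d)) : colU r j c o = colU r j c k := by
  by_cases h1 : j + 2 ≤ k % r ∧ k % r ≤ c
  · have hlt : c - k % r < m := by
      by_contra hcon
      obtain ⟨d, hd, hdd⟩ := hN
      have := wb (r := r) (k := k) (d := d) (by omega)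
      omega
    have w1 := wb (r := r) (k := k) (d := c - k % r) (by omega)
    have w2 := wb (r := r) (k := o) (d := c - k % r) (by omega)
    have e := h _ hlt (by omega)
    rw [aa_eq (by omega), aa_eq (by omega) (k + _), w1.2, w2.2, w1.1, w2.1, hmod,
      show k % r + (c - k % r) = c from by omega] at e
    unfold colU
    rw [hmod, if_pos h1, if_pos h1, e]
  · unfold colU
    rw [hmod, if_neg h1, if_neg h1]

/-- end colours, case `c > j + 1`: labels decide -/
theorem colU_end {r j c o k m : ℕ} (hjc : j + 1 < c) (hc : c < r) (hmod : o % r = k % r)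
    (hN : ∃ d < m, (k + d) % r = c ∨ (k + d) % r = j)
    (h : Lab r j o k m) : colU r j c (o + m) = colU r j c (k + m) := by
  have hmod' := mod_shift hmod m
  by_cases h1 : j + 2 ≤ (k + m) % r ∧ (k + m) % r ≤ c
  · have hle : (k + m) % r - j ≤ m := by
      by_contra hcon
      obtain ⟨d, hd, hdd⟩ := hN
      have := (wb' (r := r) (k := k + d) (d := m - d) (by omega) (by
        rw [show k + d + (m - d) = k + m from by omega]; omega)).1
      rw [show k + d + (m - d) = k + m from by omega] at this
      omega
    obtain ⟨d, hd⟩ : ∃ d, m = d + ((k + m) % r - j) := ⟨m - ((k + m) % r - j), by omega⟩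
    have w1 := wb' (r := r) (k := k + d) (d := (k + m) % r - j) (by omega) (by
      rw [Nat.add_assoc, ← hd]; omega)
    have w2 := wb' (r := r) (k := o + d) (d := (k + m) % r - j) (by omega) (by
      rw [Nat.add_assoc, ← hd]; omega)
    rw [Nat.add_assoc, ← hd] at w1 w2
    have e := h d (by omega) (by omega)
    rw [w1.2, w2.2] at e
    unfold colU
    rw [hmod', if_pos h1, if_pos h1, e]
  · unfold colU
    rw [hmod', if_neg h1, if_neg h1]

/-- start colours, case `c < j`: labels decide -/
theorem colD_start {r j c o k m : ℕ} (hjc : c < j) (hc : j + 1 < r) (hmod : o % r = k % r)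
    (hN : ∃ d < m, (k + d) % r = c ∨ (k + d) % r = j)
    (h : Lab r j o k m) : colD r j c o = colD r j c k := by
  by_cases h1 : c < k % r ∧ k % r ≤ j
  · have hlt : j - k % r < m := by
      by_contra hcon
      obtain ⟨d, hd, hdd⟩ := hN
      have := wb (r := r) (k := k) (d := d) (by omega)
      omega
    have w1 := wb (r := r) (k := k) (d := j - k % r) (by omega)
    have w2 := wb (r := r) (k := o) (d := j - k % r) (by omega)
    have e := h _ hlt (by omega)
    rw [w1.2, w2.2] at e
    unfold colD
    rw [hmod, if_pos h1, if_pos h1, e]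
  · unfold colD
    rw [hmod, if_neg h1, if_neg h1]

/-- end colours, case `c < j`: letters decide -/
theorem colD_end {r j c o k m : ℕ} (hjc : c < j) (hc : j + 1 < r) (hmod : o % r = k % r)
    (hN : ∃ d < m, (k + d) % r = c ∨ (k + d) % r = j)
    (h : ∀ d < m, (k + d) % r = c → aa r (o + d) = aa r (k + d)) :
    colD r j c (o + m) = colD r j c (k + m) := by
  have hmod' := mod_shift hmod m
  by_cases h1 : c < (k + m) % r ∧ (k + m) % r ≤ j
  · have hle : (k + m) % r - c ≤ m := by
      by_contra hcon
      obtain ⟨d, hd, hdd⟩ := hN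
      have := (wb' (r := r) (k := k + d) (d := m - d) (by omega) (by
        rw [show k + d + (m - d) = k + m from by omega]; omega)).1
      rw [show k + d + (m - d) = k + m from by omega] at this
      omega
    obtain ⟨d, hd⟩ : ∃ d, m = d + ((k + m) % r - c) := ⟨m - ((k + m) % r - c), by omega⟩
    have w1 := wb' (r := r) (k := k + d) (d := (k + m) % r - c) (by omega) (by
      rw [Nat.add_assoc, ← hd]; omega)
    have w2 := wb' (r := r) (k := o + d) (d := (k + m) % r - c) (by omega) (by
      rw [Nat.add_assoc, ← hd]; omega)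
    rw [Nat.add_assoc, ← hd] at w1 w2
    have e := h d (by omega) (by omega)
    rw [aa_eq (by omega), aa_eq (by omega) (k + _), w1.2, w2.2, w1.1, w2.1, hmod',
      show (k + m) % r - ((k + m) % r - c) = c from by omega] at e
    unfold colD
    rw [hmod', if_pos h1, if_pos h1, e]
  · unfold colD
    rw [hmod', if_neg h1, if_neg h1]

/-- letters in column `j` from labels -/
theorem letter_j {r j o k m : ℕ} (hj : j + 1 < r) (hmod : 0 < m → o % r = k % r)
    (h : Lab r j o k m) : ∀ d < m, (k + d) % r = j → aa r (o + d) = aa r (k + d) := by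
  intro d hd hdj
  have h2 := mod_shift (hmod (by omega)) d
  rw [aa_eq (by omega), aa_eq (by omega) (k + d), h d hd hdj, h2]

/-- letters in column `j+1` from labels -/
theorem letter_j1 {r j o k m : ℕ} (hj : j + 1 < r) (hmod : 0 < m → o % r = k % r)
    (hcut : 0 < m → k % r ≠ j + 1)
    (h : Lab r j o k m) : ∀ d < m, (k + d) % r = j + 1 → aa r (o + d) = aa r (k + d) := by
  intro d hd hdj
  have hd0 : d ≠ 0 := by
    rintro rfl
    exact hcut (by omega) hdj
  obtain ⟨e, rfl⟩ : ∃ e, d = e + 1 := ⟨d - 1, by omega⟩
  have h2 := mod_shift (hmod (by omega)) (e + 1)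
  have w1 := wb' (r := r) (k := k + e) (d := 1) (by omega) (by
    rw [Nat.add_assoc, hdj]; omega)
  have w2 := wb' (r := r) (k := o + e) (d := 1) (by omega) (by
    rw [Nat.add_assoc, h2, hdj]; omega)
  rw [Nat.add_assoc] at w1 w2
  have e1 := h e (by omega) (by omega)
  rw [w1.2, w2.2] at e1
  rw [aa_eq (by omega), aa_eq (by omega) (k + (e + 1)), e1, h2]

/-- letters in column `c > j+1` from labels and start colours -/
theorem letterU {r j c o k m : ℕ} (hjc : j + 1 < c) (hc : c < r) (hmod : 0 < m → o % r = k % r)
    (hcut : 0 < m → k % r ≠ j + 1) (h : Lab r j o k m)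
    (hs : (∃ d < m, (k + d) % r = c ∨ (k + d) % r = j) → colU r j c o = colU r j c k) :
    ∀ d < m, (k + d) % r = c → aa r (o + d) = aa r (k + d) := by
  intro d hd hdc
  have hm : 0 < m := by omega
  have h2 := mod_shift (hmod hm) d
  rw [aa_eq (by omega), aa_eq (by omega) (k + d), h2, hdc]
  by_cases hdd : c - j ≤ d
  · obtain ⟨e, he⟩ : ∃ e, d = e + (c - j) := ⟨d - (c - j), by omega⟩
    have w1 := wb' (r := r) (k := k + e) (d := c - j) (by omega) (by
      rw [Nat.add_assoc, ← he]; omega)
    have w2 := wb' (r := r) (k := o + e) (d := c - j) (by omega) (by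
      rw [Nat.add_assoc, ← he]; omega)
    rw [Nat.add_assoc, ← he] at w1 w2
    have e1 := h e (by omega) (by omega)
    rw [w1.2, w2.2] at e1
    rw [e1]
  · have w1 := wb' (r := r) (k := k) (d := d) (by omega) (by omega)
    have w2 := wb' (r := r) (k := o) (d := d) (by omega) (by omega)
    have h3 := hcut hm
    have e1 := hs ⟨d, hd, Or.inl hdc⟩
    have hin : j + 2 ≤ k % r ∧ k % r ≤ c := by omega
    unfold colU at e1
    rw [hmod hm, if_pos hin, if_pos hin, w1.2, w2.2] at e1
    exact Option.some.inj e1

/-- letters in column `c < j` from labels and end colours -/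
theorem letterD {r j c o k m : ℕ} (hjc : c < j) (hc : j + 1 < r) (hmod : 0 < m → o % r = k % r)
    (h : Lab r j o k m)
    (hs : (∃ d < m, (k + d) % r = c ∨ (k + d) % r = j) →
      colD r j c (o + m) = colD r j c (k + m)) :
    ∀ d < m, (k + d) % r = c → aa r (o + d) = aa r (k + d) := by
  intro d hd hdc
  have hm : 0 < m := by omega
  have h2 := mod_shift (hmod hm) d
  rw [aa_eq (by omega), aa_eq (by omega) (k + d), h2, hdc]
  by_cases hdd : d + (j - c) < m
  · have w1 := wb (r := r) (k := k + d) (d := j - c) (by omega)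
    have w2 := wb (r := r) (k := o + d) (d := j - c) (by omega)
    rw [Nat.add_assoc] at w1 w2
    have e1 := h (d + (j - c)) (by omega) (by omega)
    rw [w1.2, w2.2] at e1
    rw [e1]
  · have w1 := wb (r := r) (k := k + d) (d := m - d) (by omega)
    have w2 := wb (r := r) (k := o + d) (d := m - d) (by omega)
    rw [Nat.add_assoc, show d + (m - d) = m from by omega] at w1 w2
    have e1 := hs ⟨d, hd, Or.inl hdc⟩
    have hin : c < (k + m) % r ∧ (k + m) % r ≤ j := by omega
    unfold colD at e1
    rw [mod_shift (hmod hm) m, if_pos hin, if_pos hin, w1.2, w2.2] at e1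
    exact Option.some.inj e1

end Pool.Agent.Q15.BM
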