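import Pool.Agent.Q15.BM.A3

/-! # The key theorem: inequalities of `B_2^1` in few variables hold for the factors of the word -/

namespace Pool.Agent.Q15.BM

/-- a property of all occurrences of letters of a word, with their virtual positions -/
def Pos (φ : ℕ → List (ℕ × ℕ)) (P : ℕ → ℕ → Prop) : ℕ → List ℕ → Prop
  | _, [] => True
  | k, y :: l => P k y ∧ Pos φ P (k + (φ y).length) l

theorem Pos.imp {φ : ℕ → List (ℕ × ℕ)} {P Q : ℕ → ℕ → Prop} {l : List ℕ} :
    ∀ {k : ℕ}, Pos φ P k l → (∀ k, ∀ y ∈ l, P k y → Q k y) → Pos φ Q k l := by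
  induction l with
  | nil => intro k _ _; trivial
  | cons y l ih =>
    intro k h hPQ
    exact ⟨hPQ k y (by simp) h.1, ih h.2 fun k z hz => hPQ k z (by simp [hz])⟩

theorem Pos.and {φ : ℕ → List (ℕ × ℕ)} {P Q : ℕ → ℕ → Prop} {l : List ℕ} :
    ∀ {k : ℕ}, Pos φ P k l → Pos φ Q k l → Pos φ (fun k y => P k y ∧ Q k y) k l := by
  induction l with
  | nil => intro k _ _; trivial
  | cons y l ih => intro k h h'; exact ⟨⟨h.1, h'.1⟩, ih h.2 h'.2⟩

theorem Pos.all {φ : ℕ → List (ℕ × ℕ)} {P : ℕ → ℕ → ℕ → Prop} {l : List ℕ} {r : ℕ} :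
    ∀ {k : ℕ}, (∀ c < r, Pos φ (P c) k l) → Pos φ (fun k y => ∀ c < r, P c k y) k l := by
  induction l with
  | nil => intro k _; trivial
  | cons y l ih =>
    intro k h
    exact ⟨fun c hc => (h c hc).1, ih fun c hc => (h c hc).2⟩

/-- reading an actual factor -/
theorem run_pos {K : Type} {r : ℕ} {φ : ℕ → List (ℕ × ℕ)} {D : ℕ → Prop} {s t : ℕ → K}
    {col : ℕ → K} (p : List ℕ) : ∀ a ℓ : ℕ, p.flatMap φ = seg r a ℓ →
    (∀ x ∈ p, ∀ k, φ x = seg r k (φ x).length → (D x → col (k + (φ x).length) = col k) ∧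
      (¬ D x → s x = col k ∧ t x = col (k + (φ x).length))) →
    Run D s t (col a) p (col (a + ℓ)) := by
  induction p with
  | nil =>
    intro a ℓ h _
    have := congrArg List.length h
    simp at this
    subst this
    rfl
  | cons x l ih =>
    intro a ℓ h hx
    rw [List.flatMap_cons] at h
    obtain ⟨h1, h2, h3⟩ := seg_split h
    have h4 := ih _ _ h2 fun y hy => hx y (by simp [hy])
    rw [Nat.add_assoc, ← h3] at h4
    obtain ⟨h5, h6⟩ := hx x (by simp) a h1
    by_cases hD : D x
    · rw [h5 hD] at h4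
      exact Or.inl ⟨hD, h4⟩
    · obtain ⟨h7, h8⟩ := h6 hD
      rw [← h8] at h4
      exact Or.inr ⟨hD, h7.symm, h4⟩

theorem pos_forward {K : Type} {φ : ℕ → List (ℕ × ℕ)} {D : ℕ → Prop} {s t : ℕ → K}
    {col : ℕ → K} (l : List ℕ) : ∀ (k : ℕ) (j : K), Run D s t (col k) l j →
    Pos φ (fun k y => (D y → col (k + (φ y).length) = col k) ∧
      (¬ D y → t y = col (k + (φ y).length))) k l →
    Pos φ (fun k y => ¬ D y → s y = col k) k l := by
  induction l with
  | nil => intro k j _ _; trivial
  | cons y l ih =>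
    intro k j h hP
    obtain ⟨⟨h1, h2⟩, h3⟩ := hP
    rcases h with ⟨hD, h⟩ | ⟨hD, h, h'⟩
    · rw [← h1 hD] at h
      exact ⟨fun hn => absurd hD hn, ih _ _ h h3⟩
    · rw [h2 hD] at h'
      exact ⟨fun _ => h.symm, ih _ _ h' h3⟩

theorem pos_backward {K : Type} {φ : ℕ → List (ℕ × ℕ)} {D : ℕ → Prop} {s t : ℕ → K}
    {col : ℕ → K} (l : List ℕ) : ∀ (k : ℕ) (i : K),
    Run D s t i l (col (k + (l.flatMap φ).length)) →
    Pos φ (fun k y => (D y → col (k + (φ y).length) = col k) ∧
      (¬ D y → s y = col k)) k l →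
    i = col k ∧ Pos φ (fun k y => ¬ D y → t y = col (k + (φ y).length)) k l := by
  induction l with
  | nil =>
    intro k i h _
    simp only [Run, List.flatMap_nil, List.length_nil, Nat.add_zero] at h
    exact ⟨h, trivial⟩
  | cons y l ih =>
    intro k i h hP
    obtain ⟨⟨h1, h2⟩, h3⟩ := hP
    rw [List.flatMap_cons, List.length_append, ← Nat.add_assoc] at h
    rcases h with ⟨hD, h⟩ | ⟨hD, h, h'⟩
    · obtain ⟨h4, h5⟩ := ih _ _ h h3
      exact ⟨by rw [h4, h1 hD], fun hn => absurd hD hn, h5⟩
    · obtain ⟨h4, h5⟩ := ih _ _ h' h3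
      exact ⟨by rw [h, h2 hD], fun _ => h4, h5⟩

/-- residues of the virtual positions -/
theorem pos_mod {r : ℕ} {φ : ℕ → List (ℕ × ℕ)} {o : ℕ → ℕ} (l : List ℕ) : ∀ (k i : ℕ),
    Run (fun x => (φ x).length = 0) (fun x => o x % r) (fun x => (o x + (φ x).length) % r)
      (k % r) l i →
    Pos φ (fun k y => 0 < (φ y).length → o y % r = k % r) k l ∧
      i = (k + (l.flatMap φ).length) % r := by
  induction l with
  | nil =>
    intro k i h
    simp only [Run] at h
    exact ⟨trivial, by simpa using h.symm⟩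
  | cons y l ih =>
    intro k i h
    rw [List.flatMap_cons, List.length_append, ← Nat.add_assoc]
    rcases h with ⟨hD, h⟩ | ⟨hD, h, h'⟩
    · have hk : k % r = (k + (φ y).length) % r := by rw [hD, Nat.add_zero]
      rw [hk] at h
      obtain ⟨h1, h2⟩ := ih _ _ h
      exact ⟨⟨fun h0 => by omega, h1⟩, h2⟩
    · have h3 : (o y + (φ y).length) % r = (k + (φ y).length) % r := mod_shift h.symm _
      have h4 : Run (fun x => (φ x).length = 0) (fun x => o x % r)
        (fun x => (o x + (φ x).length) % r) ((k + (φ y).length) % r) l i := by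
        rw [← h3]; exact h'
      obtain ⟨h1, h2⟩ := ih _ _ h4
      exact ⟨⟨fun _ => h.symm, h1⟩, h2⟩

/-- the labels along the virtual positions -/
theorem pos_desc {r j : ℕ} (hj : j < r) {φ : ℕ → List (ℕ × ℕ)} {o : ℕ → ℕ} (l : List ℕ) :
    ∀ (k N : ℕ), l.flatMap (fun x => desc r j (o x) (φ x).length) = seg r (bt r j k) N →
    Pos φ (fun k y => 0 < (φ y).length → o y % r = k % r) k l →
    Pos φ (fun k y => desc r j (o y) (φ y).length = desc r j k (φ y).length) k l ∧
      bt r j k + N = bt r j (k + (l.flatMap φ).length) := by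
  induction l with
  | nil =>
    intro k N h _
    have := congrArg List.length h
    simp at this
    subst this
    exact ⟨trivial, by simp⟩
  | cons y l ih =>
    intro k N h hP
    obtain ⟨h0, hP⟩ := hP
    rw [List.flatMap_cons] at h
    obtain ⟨h1, h2, h3⟩ := seg_split h
    have hlen : (desc r j (o y) (φ y).length).length = bt r j (k + (φ y).length) - bt r j k := by
      rcases Nat.eq_zero_or_pos (φ y).length with hz | hz
      · rw [hz]; simp
      · rw [desc_length (h0 hz) (φ y).length, desc_eq_seg hj, seg_length]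
    have hm := bt_mono r j k (φ y).length
    rw [hlen] at h1 h2 h3
    rw [show bt r j k + (bt r j (k + (φ y).length) - bt r j k) = bt r j (k + (φ y).length)
      from by omega] at h2
    obtain ⟨h4, h5⟩ := ih _ _ h2 hP
    rw [List.flatMap_cons, List.length_append, ← Nat.add_assoc, ← h5]
    refine ⟨⟨?_, h4⟩, by omega⟩
    show desc r j (o y) (φ y).length = desc r j k (φ y).length
    rw [desc_eq_seg hj k]
    exact h1

theorem desc_flatMap {r j : ℕ} {φ : ℕ → List (ℕ × ℕ)} {ψ : ℕ → List (ℕ × ℕ)} (p : List ℕ) :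
    ∀ a ℓ : ℕ, p.flatMap φ = seg r a ℓ →
    (∀ x ∈ p, ∀ k, φ x = seg r k (φ x).length → ψ x = desc r j k (φ x).length) →
    p.flatMap ψ = desc r j a ℓ := by
  induction p with
  | nil =>
    intro a ℓ h _
    have := congrArg List.length h
    simp at this
    subst this
    simp
  | cons x l ih =>
    intro a ℓ h hx
    rw [List.flatMap_cons] at h ⊢
    obtain ⟨h1, h2, h3⟩ := seg_split h
    rw [h3, desc_add, hx x (by simp) a h1, ih _ _ h2 fun y hy => hx y (by simp [hy])]

theorem seg_of_pos {r : ℕ} {φ : ℕ → List (ℕ × ℕ)} (l : List ℕ) : ∀ k : ℕ,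
    Pos φ (fun k y => φ y = seg r k (φ y).length) k l →
    l.flatMap φ = seg r k (l.flatMap φ).length := by
  induction l with
  | nil => intro k _; simp
  | cons y l ih =>
    intro k h
    rw [List.flatMap_cons, List.length_append, seg_add]
    rw [← ih _ h.2]
    rw [← h.1]

theorem exists_occ {r : ℕ} {φ : ℕ → List (ℕ × ℕ)} {x : ℕ} (p : List ℕ) :
    ∀ a ℓ : ℕ, p.flatMap φ = seg r a ℓ → x ∈ p → ∃ k, φ x = seg r k (φ x).length := by
  induction p with
  | nil => intro a ℓ _ h; simp at h
  | cons y l ih =>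
    intro a ℓ h hx
    rw [List.flatMap_cons] at h
    obtain ⟨h1, h2, h3⟩ := seg_split h
    rcases List.mem_cons.1 hx with h4 | h4
    · subst h4; exact ⟨a, h1⟩
    · exact ih _ _ h2 h4

theorem exists_uncut (r : ℕ) (C : Finset ℕ) (h : C.card + 2 ≤ r) :
    ∃ j, j + 1 < r ∧ j + 1 ∉ C := by
  by_contra hcon
  push Not at hcon
  have : (Finset.range (r - 1)).image (· + 1) ⊆ C := by
    intro x hx
    obtain ⟨j, hj, rfl⟩ := Finset.mem_image.1 hx
    exact hcon j (by have := Finset.mem_range.1 hj; omega)
  have h2 := Finset.card_le_card this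
  rw [Finset.card_image_of_injective _ (fun a b h => by simpa using h), Finset.card_range] at h2
  omega

/-- **Key theorem.** -/
theorem key {n r : ℕ} (hr : 2 * n + 3 ≤ r) {I : List (List ℕ)} {q : List ℕ} (H : Hyp I q)
    (hI : I ≠ []) (X : Finset ℕ) (hX : X.card ≤ n) (hIX : ∀ p ∈ I, ∀ x ∈ p, x ∈ X) :
    ∀ (ℓ : ℕ) (φ : ℕ → List (ℕ × ℕ)) (a : ℕ), (∀ p ∈ I, p.flatMap φ = seg r a ℓ) →
      q.flatMap φ = seg r a ℓ := by
  classical
  intro ℓ
  induction ℓ using Nat.strong_induction_on with
  | _ ℓ IH =>
  intro φ a hp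
  have hqI := mem_of_hyp H
  rcases Nat.eq_zero_or_pos ℓ with hℓ | hℓ
  · subst hℓ
    simp only [seg_zero, List.flatMap_eq_nil_iff] at hp ⊢
    intro x hx
    obtain ⟨p, hpI, hxp⟩ := hqI x hx
    exact hp p hpI x hxp
  -- occurrences
  have hocc : ∀ x, ∃ k, (∃ p ∈ I, x ∈ p) → φ x = seg r k (φ x).length := by
    intro x
    by_cases h : ∃ p ∈ I, x ∈ p
    · obtain ⟨p, hpI, hxp⟩ := h
      obtain ⟨k, hk⟩ := exists_occ p a ℓ (hp p hpI) hxp
      exact ⟨k, fun _ => hk⟩
    · exact ⟨0, fun h' => absurd h' h⟩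
  choose o ho using hocc
  -- the uncut pair of columns
  obtain ⟨j, hj, hjC⟩ := exists_uncut r
    ((X.image fun x => o x % r) ∪ (X.image fun x => (o x + (φ x).length) % r) ∪ {(a + ℓ) % r}) (by
      have h1 := Finset.card_union_le ((X.image fun x => o x % r) ∪
        (X.image fun x => (o x + (φ x).length) % r)) {(a + ℓ) % r}
      have h2 := Finset.card_union_le (X.image fun x => o x % r)
        (X.image fun x => (o x + (φ x).length) % r)
      have h3 := Finset.card_image_le (s := X) (f := fun x => o x % r)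
      have h4 := Finset.card_image_le (s := X) (f := fun x => (o x + (φ x).length) % r)
      simp only [Finset.card_singleton] at h1
      omega)
  simp only [Finset.mem_union, Finset.mem_image, Finset.mem_singleton, not_or, not_exists,
    not_and] at hjC
  obtain ⟨⟨hc1, hc2⟩, hc3⟩ := hjC
  have hr2 : 2 ≤ r := by omega
  -- facts on actual occurrences
  have hact : ∀ x, (∃ p ∈ I, x ∈ p) → ∀ k, φ x = seg r k (φ x).length →
      (0 < (φ x).length → o x % r = k % r) ∧ seg r (o x) (φ x).length = seg r k (φ x).length ∧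
      (0 < (φ x).length → k % r ≠ j + 1) ∧ (0 < (φ x).length → (k + (φ x).length) % r ≠ j + 1) := by
    intro x hx k hk
    have h1 := ho x hx
    have h2 : seg r (o x) (φ x).length = seg r k (φ x).length := by rw [← h1, ← hk]
    have hxX : x ∈ X := by
      obtain ⟨p, hpI, hxp⟩ := hx
      exact hIX p hpI x hxp
    have h3 : 0 < (φ x).length → o x % r = k % r := fun hm => mod_of_seg hm h2
    refine ⟨h3, h2, fun hm => ?_, fun hm => ?_⟩
    · rw [← h3 hm]; exact hc1 x hxX
    · rw [← mod_shift (h3 hm)]; exact hc2 x hxX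
  -- labels on actual occurrences
  have hlab : ∀ x, (∃ p ∈ I, x ∈ p) → ∀ k, φ x = seg r k (φ x).length →
      Lab r j (o x) k (φ x).length := by
    intro x hx k hk
    obtain ⟨h1, h2, h3, h4⟩ := hact x hx k hk
    exact lab_of_seg hj h4 h2
  -- induction hypothesis for labels
  have hlt : bt r j (a + ℓ) - bt r j a < ℓ := by
    have := desc_length_lt (k := a) hj hℓ (fun h => hc3 h.symm)
    rw [desc_eq_seg (by omega)] at this
    simpa using this
  have hdesc := IH _ hlt (fun x => desc r j (o x) (φ x).length) (bt r j a) (by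
    intro p hpI
    rw [← desc_eq_seg (by omega)]
    apply desc_flatMap p a ℓ (hp p hpI)
    intro x hxp k hk
    obtain ⟨h1, h2, h3, h4⟩ := hact x ⟨p, hpI, hxp⟩ k hk
    have h5 := hlab x ⟨p, hpI, hxp⟩ k hk
    rcases Nat.eq_zero_or_pos (φ x).length with hz | hz
    · rw [hz]; simp
    · apply desc_congr (h1 hz)
      intro d hd hdj
      exact h5 d hd (by rw [← mod_shift (h1 hz) d]; exact hdj))
  -- residues
  have hrun0 := transfer H (fun x => (φ x).length = 0) (fun x => o x % r)
    (fun x => (o x + (φ x).length) % r) (a % r) ((a + ℓ) % r) (by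
      intro p hpI
      apply run_pos (col := fun k => k % r) p a ℓ (hp p hpI)
      intro x hxp k hk
      obtain ⟨h1, h2, h3, h4⟩ := hact x ⟨p, hpI, hxp⟩ k hk
      refine ⟨fun hD => by rw [hD, Nat.add_zero], fun hD => ?_⟩
      have := h1 (by omega)
      exact ⟨this, mod_shift this _⟩)
  obtain ⟨hposmod, hend⟩ := pos_mod q a _ hrun0
  obtain ⟨hposdesc, hbt⟩ := pos_desc (by omega) q a _ hdesc hposmod
  -- total length
  have hlen : (q.flatMap φ).length = ℓ := by
    have hm := bt_mono r j a ℓ
    have h1 : bt r j (a + ℓ) = bt r j (a + (q.flatMap φ).length) := by omega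
    have h2 := mod_shift hend (r - 1 - j)
    unfold bt at h1
    have h3 : a + ℓ + (r - 1 - j) = a + (q.flatMap φ).length + (r - 1 - j) := by
      rw [← Nat.mod_add_div (a + ℓ + (r - 1 - j)) r,
        ← Nat.mod_add_div (a + (q.flatMap φ).length + (r - 1 - j)) r, h1, h2]
    omega
  -- basic facts at the virtual positions
  have hbase : Pos φ (fun k y => (0 < (φ y).length → o y % r = k % r) ∧
      Lab r j (o y) k (φ y).length) a q := by
    apply (hposmod.and hposdesc).imp
    intro k y hy h
    refine ⟨h.1, fun d hd hdj => ?_⟩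
    have h0 := h.1 (by omega)
    exact agree_of_desc h0 _ h.2 d hd (by rw [mod_shift h0 d]; exact hdj)
  have hstat : ∀ y ∈ q, 0 < (φ y).length → o y % r ≠ j + 1 ∧ (o y + (φ y).length) % r ≠ j + 1 := by
    intro y hy hm
    obtain ⟨h1, h2, h3, h4⟩ := hact y (hqI y hy) (o y) (ho y (hqI y hy))
    exact ⟨h3 hm, h4 hm⟩
  -- the letters, column by column
  have hcol : ∀ c < r, Pos φ (fun k y => ∀ d < (φ y).length, (k + d) % r = c →
      aa r (o y + d) = aa r (k + d)) a q := by
    intro c hc
    rcases lt_trichotomy c j with hcj | hcj | hcj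
    · -- case c < j
      set D : ℕ → Prop := fun x => ∀ d < (φ x).length, (o x + d) % r ≠ c ∧ (o x + d) % r ≠ j
        with hDdef
      have hDk : ∀ x k, (0 < (φ x).length → o x % r = k % r) → D x →
          ∀ d < (φ x).length, (k + d) % r ≠ c ∧ (k + d) % r ≠ j := by
        intro x k h1 hD d hd
        have := hD d hd
        rw [mod_shift (h1 (by omega)) d] at this
        exact this
      have hNk : ∀ x k, (0 < (φ x).length → o x % r = k % r) → ¬ D x →
          o x % r = k % r ∧ ∃ d < (φ x).length, (k + d) % r = c ∨ (k + d) % r = j := by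
        intro x k h1 hD
        rw [hDdef] at hD
        push Not at hD
        obtain ⟨d, hd, h2⟩ := hD
        have h3 := h1 (by omega)
        refine ⟨h3, d, hd, ?_⟩
        rw [← mod_shift h3 d]
        by_cases h4 : (o x + d) % r = c
        · exact Or.inl h4
        · exact Or.inr (h2 h4)
      have hrun := transfer H D (fun x => colD r j c (o x))
        (fun x => colD r j c (o x + (φ x).length)) (colD r j c a) (colD r j c (a + ℓ)) (by
          intro p hpI
          apply run_pos (col := colD r j c) p a ℓ (hp p hpI)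
          intro x hxp k hk
          obtain ⟨h1, h2, h3, h4⟩ := hact x ⟨p, hpI, hxp⟩ k hk
          have h5 := hlab x ⟨p, hpI, hxp⟩ k hk
          refine ⟨fun hD => colD_D hcj hj (hDk x k h1 hD), fun hD => ?_⟩
          obtain ⟨h6, h7⟩ := hNk x k h1 hD
          refine ⟨colD_start hcj hj h6 h7 h5, colD_end hcj hj h6 h7 ?_⟩
          intro d hd _
          have := (seg_eq_iff r (o x) k _).1 h2 d hd
          exact congrArg Prod.fst this)
      rw [← hlen] at hrun
      have hback := (pos_backward (φ := φ) q a _ hrun (hbase.imp (by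
        intro k y hy h
        refine ⟨fun hD => colD_D hcj hj (hDk y k h.1 hD), fun hD => ?_⟩
        obtain ⟨h6, h7⟩ := hNk y k h.1 hD
        exact colD_start hcj hj h6 h7 h.2))).2
      apply (hbase.and hback).imp
      intro k y hy h
      refine letterD hcj hj h.1.1 h.1.2 fun hN => h.2 fun hD => ?_
      obtain ⟨d, hd, h8⟩ := hN
      have := hDk y k h.1.1 hD d hd
      omega
    · -- case c = j
      subst hcj
      apply hbase.imp
      intro k y hy h
      exact letter_j hj h.1 h.2
    · rcases Nat.eq_or_lt_of_le hcj with hcj1 | hcj1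
      · -- case c = j + 1
        apply hbase.imp
        intro k y hy h
        rw [← hcj1]
        refine letter_j1 hj h.1 (fun hm => ?_) h.2
        rw [← h.1 hm]
        exact (hstat y hy hm).1
      · -- case c > j + 1
        have hcj2 : j + 1 < c := hcj1
        set D : ℕ → Prop := fun x => ∀ d < (φ x).length, (o x + d) % r ≠ c ∧ (o x + d) % r ≠ j
          with hDdef
        have hDk : ∀ x k, (0 < (φ x).length → o x % r = k % r) → D x →
            ∀ d < (φ x).length, (k + d) % r ≠ c ∧ (k + d) % r ≠ j := by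
          intro x k h1 hD d hd
          have := hD d hd
          rw [mod_shift (h1 (by omega)) d] at this
          exact this
        have hNk : ∀ x k, (0 < (φ x).length → o x % r = k % r) → ¬ D x →
            o x % r = k % r ∧ ∃ d < (φ x).length, (k + d) % r = c ∨ (k + d) % r = j := by
          intro x k h1 hD
          rw [hDdef] at hD
          push Not at hD
          obtain ⟨d, hd, h2⟩ := hD
          have h3 := h1 (by omega)
          refine ⟨h3, d, hd, ?_⟩
          rw [← mod_shift h3 d]
          by_cases h4 : (o x + d) % r = c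
          · exact Or.inl h4
          · exact Or.inr (h2 h4)
        have hrun := transfer H D (fun x => colU r j c (o x))
          (fun x => colU r j c (o x + (φ x).length)) (colU r j c a) (colU r j c (a + ℓ)) (by
            intro p hpI
            apply run_pos (col := colU r j c) p a ℓ (hp p hpI)
            intro x hxp k hk
            obtain ⟨h1, h2, h3, h4⟩ := hact x ⟨p, hpI, hxp⟩ k hk
            have h5 := hlab x ⟨p, hpI, hxp⟩ k hk
            refine ⟨fun hD => colU_D hcj2 hc h3 (hDk x k h1 hD), fun hD => ?_⟩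
            obtain ⟨h6, h7⟩ := hNk x k h1 hD
            refine ⟨colU_start hcj2 hc h6 h7 ?_, colU_end hcj2 hc h6 h7 h5⟩
            intro d hd _
            have := (seg_eq_iff r (o x) k _).1 h2 d hd
            exact congrArg Prod.fst this)
        have hcutk : ∀ k, ∀ y ∈ q, (0 < (φ y).length → o y % r = k % r) →
            0 < (φ y).length → k % r ≠ j + 1 := by
          intro k y hy h hm
          rw [← h hm]
          exact (hstat y hy hm).1
        have hfor := pos_forward (φ := φ) q a _ hrun (hbase.imp (by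
          intro k y hy h
          refine ⟨fun hD => colU_D hcj2 hc (hcutk k y hy h.1) (hDk y k h.1 hD), fun hD => ?_⟩
          obtain ⟨h6, h7⟩ := hNk y k h.1 hD
          exact colU_end hcj2 hc h6 h7 h.2))
        apply (hbase.and hfor).imp
        intro k y hy h
        refine letterU hcj2 hc h.1.1 (hcutk k y hy h.1.1) h.1.2 fun hN => h.2 fun hD => ?_
        obtain ⟨d, hd, h8⟩ := hN
        have := hDk y k h.1.1 hD d hd
        omega
  have hfin : Pos φ (fun k y => φ y = seg r k (φ y).length) a q := by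
    apply (hbase.and (Pos.all hcol)).imp
    intro k y hy h
    have h1 := ho y (hqI y hy)
    conv_lhs => rw [h1]
    rw [seg_eq_iff]
    intro d hd
    have h2 := mod_shift (h.1.1 (by omega)) d
    unfold U
    rw [h2, h.2 ((k + d) % r) (Nat.mod_lt _ (by omega)) d hd rfl]
  have := seg_of_pos q a hfin
  rw [hlen] at this
  exact this

end Pool.Agent.Q15.BM
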