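import Pool.Agent.Q15.BM.A4

/-! # Terms, identities, varieties; the flat algebra of factors -/

namespace Pool.Agent.Q15.BM

/-- Terms in the signature `{+, ·}` over the variables `0, 1, 2, …`. -/
inductive Term : Type
  | var : ℕ → Term
  | add : Term → Term → Term
  | mul : Term → Term → Term

namespace Term

/-- the value of a term under a valuation of the variables -/
def eval {A : Type} [Add A] [Mul A] (v : ℕ → A) : Term → A
  | var n => v n
  | add s t => eval v s + eval v t
  | mul s t => eval v s * eval v t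

/-- the words of the expanded term -/
def words : Term → List (List ℕ)
  | var n => [[n]]
  | add s t => words s ++ words t
  | mul s t => (words s).flatMap fun p => (words t).map fun q => p ++ q

/-- the variables of a term -/
def vars : Term → Finset ℕ
  | var n => {n}
  | add s t => vars s ∪ vars t
  | mul s t => vars s ∪ vars t

theorem words_ne_nil (t : Term) : t.words ≠ [] := by
  induction t with
  | var n => simp [words]
  | add s t ihs iht => simp [words, ihs]
  | mul s t ihs iht =>
    simp only [words]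
    obtain ⟨p, hp⟩ := List.exists_mem_of_ne_nil _ ihs
    obtain ⟨q, hq⟩ := List.exists_mem_of_ne_nil _ iht
    apply List.ne_nil_of_mem (a := p ++ q)
    rw [List.mem_flatMap]
    exact ⟨p, hp, List.mem_map.2 ⟨q, hq, rfl⟩⟩

theorem mem_vars (t : Term) : ∀ p ∈ t.words, ∀ x ∈ p, x ∈ t.vars := by
  induction t with
  | var n => 
    intro p hp x hx
    simp only [words, List.mem_singleton] at hp
    subst hp
    simpa [vars] using hx
  | add s t ihs iht =>
    intro p hp x hx
    simp only [words, List.mem_append] at hp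
    simp only [vars, Finset.mem_union]
    rcases hp with hp | hp
    · exact Or.inl (ihs p hp x hx)
    · exact Or.inr (iht p hp x hx)
  | mul s t ihs iht =>
    intro p hp x hx
    simp only [words, List.mem_flatMap, List.mem_map] at hp
    obtain ⟨p1, hp1, p2, hp2, rfl⟩ := hp
    simp only [vars, Finset.mem_union]
    rcases List.mem_append.1 hx with h | h
    · exact Or.inl (ihs p1 hp1 x h)
    · exact Or.inr (iht p2 hp2 x h)

end Term

/-- An additively idempotent semiring: `(A, +)` is a semilattice, `(A, ·)` is a semigroup, and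
multiplication distributes over addition on both sides. -/
structure AiSemiring (A : Type) [Add A] [Mul A] : Prop where
  add_comm : ∀ x y : A, x + y = y + x
  add_assoc : ∀ x y z : A, (x + y) + z = x + (y + z)
  add_idem : ∀ x : A, x + x = x
  mul_assoc : ∀ x y z : A, (x * y) * z = x * (y * z)
  mul_add : ∀ x y z : A, x * (y + z) = x * y + x * z
  add_mul : ∀ x y z : A, (x + y) * z = x * z + y * z

/-- An identity `s ≈ t`. -/
abbrev Identity : Type := Term × Term

/-- The algebra `A` satisfies every identity of the set `E`. -/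
def Sat (A : Type) [Add A] [Mul A] (E : Set Identity) : Prop :=
  ∀ e ∈ E, ∀ v : ℕ → A, e.1.eval v = e.2.eval v

/-- The subalgebra generated by `S`. -/
inductive Gen {A : Type} [Add A] [Mul A] (S : Set A) : A → Prop
  | base : ∀ x ∈ S, Gen S x
  | add : ∀ x y, Gen S x → Gen S y → Gen S (x + y)
  | mul : ∀ x y, Gen S x → Gen S y → Gen S (x * y)

/-- Every finitely generated subalgebra is finite. -/
def LocallyFinite (A : Type) [Add A] [Mul A] : Prop :=
  ∀ S : Set A, S.Finite → {x | Gen S x}.Finite

section general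

variable {A : Type} [Add A] [Mul A] (hA : AiSemiring A) (u : A) (hu1 : ∀ x : A, u * x = x)
  (hu2 : ∀ x : A, x * u = x)

include hA hu1 in
theorem pe_append (v : ℕ → A) (p q : List ℕ) : pe u v (p ++ q) = pe u v p * pe u v q := by
  induction p with
  | nil => simp only [List.nil_append, pe]; rw [hu1]
  | cons x l ih => simp only [List.cons_append, pe]; rw [ih, hA.mul_assoc]

include hA hu1 hu2 in
theorem eval_le (v : ℕ → A) (t : Term) : ∀ q ∈ t.words, t.eval v + pe u v q = t.eval v := by
  induction t with
  | var n =>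
    intro q hq
    simp only [Term.words, List.mem_singleton] at hq
    subst hq
    simp only [Term.eval, pe]
    rw [hu2, hA.add_idem]
  | add s t ihs iht =>
    intro q hq
    simp only [Term.words, List.mem_append] at hq
    simp only [Term.eval]
    rcases hq with hq | hq
    · rw [hA.add_comm (s.eval v), hA.add_assoc, ihs q hq]
    · rw [hA.add_assoc, iht q hq]
  | mul s t ihs iht =>
    intro q hq
    simp only [Term.words, List.mem_flatMap, List.mem_map] at hq
    obtain ⟨p1, hp1, p2, hp2, rfl⟩ := hq
    simp only [Term.eval]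
    rw [pe_append hA u hu1]
    have h1 := ihs p1 hp1
    have h2 := iht p2 hp2
    have h3 : s.eval v * t.eval v = s.eval v * t.eval v + s.eval v * pe u v p2 +
        (pe u v p1 * t.eval v + pe u v p1 * pe u v p2) := by
      conv_lhs => rw [← h1, ← h2]
      rw [hA.add_mul, hA.mul_add, hA.mul_add]
    conv_lhs => rw [h3]
    rw [hA.add_assoc, hA.add_assoc (pe u v p1 * t.eval v), hA.add_idem]
    exact h3.symm

include hA hu1 hu2 in
theorem le_eval (v : ℕ → A) (t : Term) : ∀ c d z : A,
    (∀ p ∈ t.words, z + c * pe u v p * d = z) → z + c * t.eval v * d = z := by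
  induction t with
  | var n =>
    intro c d z h
    have := h [n] (by simp [Term.words])
    simp only [pe] at this
    rw [hu2] at this
    exact this
  | add s t ihs iht =>
    intro c d z h
    simp only [Term.eval]
    rw [hA.mul_add, hA.add_mul, ← hA.add_assoc, ihs c d z fun p hp => h p (by
      simp [Term.words, hp]), iht c d z fun p hp => h p (by simp [Term.words, hp])]
  | mul s t ihs iht =>
    intro c d z h
    simp only [Term.eval]
    rw [← hA.mul_assoc]
    apply iht
    intro q hq
    rw [hA.mul_assoc]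
    apply ihs
    intro p hp
    have := h (p ++ q) (by
      simp only [Term.words, List.mem_flatMap, List.mem_map]
      exact ⟨p, hp, q, hq, rfl⟩)
    rw [pe_append hA u hu1, ← hA.mul_assoc, hA.mul_assoc] at this
    exact this

include hA hu1 hu2 in
theorem hyp_gen (s t : Term) (q : List ℕ) (hq : q ∈ t.words) (v : ℕ → A)
    (h : s.eval v = t.eval v) (z : A) (hz : ∀ p ∈ s.words, z + pe u v p = z) :
    z + pe u v q = z := by
  have h1 := le_eval hA u hu1 hu2 v s u u z (by
    intro p hp
    rw [hu1, hu2]
    exact hz p hp)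
  rw [hu1, hu2, h] at h1
  have h2 := eval_le hA u hu1 hu2 v t q hq
  conv_lhs => rw [← h1]
  rw [hA.add_assoc, h2, h1]

end general

theorem B21.aiSemiring : AiSemiring B21 where
  add_comm := by
    intro x y
    rw [B21.add_def, B21.add_def]
    rcases x with _ | _ | ⟨_ | _, _ | _⟩ <;> rcases y with _ | _ | ⟨_ | _, _ | _⟩ <;> rfl
  add_assoc := by
    intro x y z
    simp only [B21.add_def]
    rcases x with _ | _ | ⟨_ | _, _ | _⟩ <;> rcases y with _ | _ | ⟨_ | _, _ | _⟩ <;>
      rcases z with _ | _ | ⟨_ | _, _ | _⟩ <;> rfl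
  add_idem := by
    intro x
    rw [B21.add_def]
    rcases x with _ | _ | ⟨_ | _, _ | _⟩ <;> rfl
  mul_assoc := by
    intro x y z
    simp only [B21.mul_def]
    rcases x with _ | _ | ⟨_ | _, _ | _⟩ <;> rcases y with _ | _ | ⟨_ | _, _ | _⟩ <;>
      rcases z with _ | _ | ⟨_ | _, _ | _⟩ <;> rfl
  mul_add := by
    intro x y z
    simp only [B21.mul_def, B21.add_def]
    rcases x with _ | _ | ⟨_ | _, _ | _⟩ <;> rcases y with _ | _ | ⟨_ | _, _ | _⟩ <;>
      rcases z with _ | _ | ⟨_ | _, _ | _⟩ <;> rfl
  add_mul := by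
    intro x y z
    simp only [B21.mul_def, B21.add_def]
    rcases x with _ | _ | ⟨_ | _, _ | _⟩ <;> rcases y with _ | _ | ⟨_ | _, _ | _⟩ <;>
      rcases z with _ | _ | ⟨_ | _, _ | _⟩ <;> rfl

theorem B21.one_mul (x : B21) : B21.one * x = x := rfl

theorem B21.mul_one (x : B21) : x * B21.one = x := by
  rw [B21.mul_def]
  cases x <;> rfl

/-- being a factor of the infinite word -/
def Fac (r : ℕ) (w : List (ℕ × ℕ)) : Prop := ∃ k, w = seg r k w.length

theorem fac_of_append {r : ℕ} {w w' : List (ℕ × ℕ)} (h : Fac r (w ++ w')) : Fac r w ∧ Fac r w' := by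
  obtain ⟨k, hk⟩ := h
  obtain ⟨h1, h2, -⟩ := seg_split hk
  exact ⟨⟨k, h1⟩, ⟨_, h2⟩⟩

theorem fac_nil (r : ℕ) : Fac r [] := ⟨0, by simp⟩

theorem fac_seg (r k m : ℕ) : Fac r (seg r k m) := ⟨k, by simp⟩

/-- the flat algebra of factors -/
def T (r : ℕ) : Type := Option {w : List (ℕ × ℕ) // Fac r w}

open Classical in
noncomputable instance (r : ℕ) : Add (T r) :=
  ⟨fun x y => if x = y then x else (none : Option {w : List (ℕ × ℕ) // Fac r w})⟩

open Classical in
/-- multiplication of factors -/
noncomputable def T.mul (r : ℕ) : T r → T r → T r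
  | some a, some b => if h : Fac r (a.1 ++ b.1) then some ⟨a.1 ++ b.1, h⟩ else none
  | _, _ => none

noncomputable instance (r : ℕ) : Mul (T r) := ⟨T.mul r⟩

/-- the element given by a factor -/
def T.of (r : ℕ) (w : List (ℕ × ℕ)) (h : Fac r w) : T r := some ⟨w, h⟩

/-- zero -/
def T.none (r : ℕ) : T r := Option.none

theorem T.cases {r : ℕ} (x : T r) : x = T.none r ∨ ∃ w h, x = T.of r w h := by
  rcases x with _ | ⟨w, h⟩
  · exact Or.inl rfl
  · exact Or.inr ⟨w, h, rfl⟩

theorem T.of_ne_none (r : ℕ) (w : List (ℕ × ℕ)) (h : Fac r w) : T.of r w h ≠ T.none r := by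
  intro h2
  exact Option.some_ne_none _ h2

theorem T.of_inj {r : ℕ} {w w' : List (ℕ × ℕ)} {h : Fac r w} {h' : Fac r w'} :
    T.of r w h = T.of r w' h' ↔ w = w' := by
  constructor
  · intro e
    have := Option.some.inj e
    exact congrArg Subtype.val this
  · intro e
    subst e
    rfl

open Classical in
theorem T.add_def {r : ℕ} (x y : T r) : x + y = if x = y then x else T.none r := rfl

theorem T.mul_of {r : ℕ} {w w' : List (ℕ × ℕ)} {h : Fac r w} {h' : Fac r w'}
    (hh : Fac r (w ++ w')) : T.of r w h * T.of r w' h' = T.of r (w ++ w') hh := by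
  show T.mul r _ _ = _
  unfold T.mul T.of
  simp only
  rw [dif_pos hh]

theorem T.mul_of_not {r : ℕ} {w w' : List (ℕ × ℕ)} {h : Fac r w} {h' : Fac r w'}
    (hh : ¬ Fac r (w ++ w')) : T.of r w h * T.of r w' h' = T.none r := by
  show T.mul r _ _ = _
  unfold T.mul T.of
  simp only
  rw [dif_neg hh]
  rfl

theorem T.none_mul {r : ℕ} (x : T r) : T.none r * x = T.none r := by
  show T.mul r _ _ = _
  rcases x with _ | x <;> rfl

theorem T.mul_none {r : ℕ} (x : T r) : x * T.none r = T.none r := by
  show T.mul r _ _ = _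
  rcases x with _ | x <;> rfl

theorem T.mul_assoc {r : ℕ} (x y z : T r) : (x * y) * z = x * (y * z) := by
  rcases T.cases x with rfl | ⟨a, ha, rfl⟩
  · rw [T.none_mul, T.none_mul, T.none_mul]
  rcases T.cases y with rfl | ⟨b, hb, rfl⟩
  · rw [T.mul_none, T.none_mul, T.mul_none]
  rcases T.cases z with rfl | ⟨c, hc, rfl⟩
  · rw [T.mul_none, T.mul_none, T.mul_none]
  by_cases h : Fac r (a ++ b ++ c)
  · have h1 := (fac_of_append h).1
    have h' : Fac r (a ++ (b ++ c)) := by rw [← List.append_assoc]; exact h
    have h2 := (fac_of_append h').2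
    rw [T.mul_of h1, T.mul_of h2, T.mul_of h, T.mul_of h', T.of_inj, List.append_assoc]
  · have h' : ¬ Fac r (a ++ (b ++ c)) := by rw [← List.append_assoc]; exact h
    have e1 : T.of r a ha * T.of r b hb * T.of r c hc = T.none r := by
      by_cases h1 : Fac r (a ++ b)
      · rw [T.mul_of h1, T.mul_of_not h]
      · rw [T.mul_of_not h1, T.none_mul]
    have e2 : T.of r a ha * (T.of r b hb * T.of r c hc) = T.none r := by
      by_cases h1 : Fac r (b ++ c)
      · rw [T.mul_of h1, T.mul_of_not h']
      · rw [T.mul_of_not h1, T.mul_none]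
    rw [e1, e2]

theorem T.mul_eq_of {r : ℕ} {x y : T r} {w : List (ℕ × ℕ)} {h : Fac r w}
    (e : x * y = T.of r w h) : ∃ a ha b hb, x = T.of r a ha ∧ y = T.of r b hb ∧ w = a ++ b := by
  rcases T.cases x with rfl | ⟨a, ha, rfl⟩
  · rw [T.none_mul] at e
    exact absurd e.symm (T.of_ne_none _ _ _)
  rcases T.cases y with rfl | ⟨b, hb, rfl⟩
  · rw [T.mul_none] at e
    exact absurd e.symm (T.of_ne_none _ _ _)
  refine ⟨a, ha, b, hb, rfl, rfl, ?_⟩
  by_cases h1 : Fac r (a ++ b)
  · rw [T.mul_of h1, T.of_inj] at e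
    exact e.symm
  · rw [T.mul_of_not h1] at e
    exact absurd e.symm (T.of_ne_none _ _ _)

theorem T.aiSemiring (r : ℕ) : AiSemiring (T r) where
  add_comm := by
    intro x y
    rw [T.add_def, T.add_def]
    by_cases h : x = y
    · subst h; rfl
    · rw [if_neg h, if_neg fun h' => h h'.symm]
  add_assoc := by
    intro x y z
    simp only [T.add_def]
    by_cases h : x = y
    · subst h
      by_cases h2 : x = z
      · subst h2; simp
      · rw [if_pos rfl, if_neg h2]
        by_cases h3 : x = T.none r
        · rw [if_pos h3, h3]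
        · rw [if_neg h3]
    · rw [if_neg h]
      by_cases h2 : y = z
      · subst h2
        rw [if_pos rfl, if_neg h]
        by_cases h3 : T.none r = y
        · rw [if_pos h3]
        · rw [if_neg h3]
      · rw [if_neg h2]
        by_cases h3 : x = T.none r
        · rw [if_pos h3, h3]
          by_cases h4 : T.none r = z
          · rw [if_pos h4]
          · rw [if_neg h4]
        · rw [if_neg h3]
          by_cases h4 : T.none r = z
          · rw [if_pos h4]
          · rw [if_neg h4]
  add_idem := by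
    intro x
    rw [T.add_def, if_pos rfl]
  mul_assoc := T.mul_assoc
  mul_add := by
    intro x y z
    simp only [T.add_def]
    by_cases h : y = z
    · subst h; simp
    · rw [if_neg h, T.mul_none]
      by_cases h2 : x * y = x * z
      · rw [if_pos h2]
        rcases T.cases (x * y) with h3 | ⟨w, hw, h3⟩
        · exact h3.symm
        · exfalso
          obtain ⟨a, ha, b, hb, rfl, rfl, rfl⟩ := T.mul_eq_of h3
          rw [h2] at h3
          obtain ⟨a', ha', c, hc, h4, rfl, h5⟩ := T.mul_eq_of h3
          rw [T.of_inj] at h4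
          subst h4
          exact h (T.of_inj.2 (List.append_cancel_left h5))
      · rw [if_neg h2]
  add_mul := by
    intro x y z
    simp only [T.add_def]
    by_cases h : x = y
    · subst h; simp
    · rw [if_neg h, T.none_mul]
      by_cases h2 : x * z = y * z
      · rw [if_pos h2]
        rcases T.cases (x * z) with h3 | ⟨w, hw, h3⟩
        · exact h3.symm
        · exfalso
          obtain ⟨a, ha, b, hb, rfl, rfl, rfl⟩ := T.mul_eq_of h3
          rw [h2] at h3
          obtain ⟨c, hc, b', hb', rfl, h4, h5⟩ := T.mul_eq_of h3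
          rw [T.of_inj] at h4
          subst h4
          exact h (T.of_inj.2 (List.append_cancel_right h5))
      · rw [if_neg h2]

theorem T.one_mul {r : ℕ} (x : T r) : T.of r [] (fac_nil r) * x = x := by
  rcases T.cases x with rfl | ⟨a, ha, rfl⟩
  · exact T.mul_none _
  · exact T.mul_of (by simpa using ha)

theorem T.mul_one {r : ℕ} (x : T r) : x * T.of r [] (fac_nil r) = x := by
  rcases T.cases x with rfl | ⟨a, ha, rfl⟩
  · exact T.none_mul _
  · have h : Fac r (a ++ []) := by simpa using ha
    rw [T.mul_of h, T.of_inj, List.append_nil]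

/-- the underlying word -/
def T.word {r : ℕ} : T r → List (ℕ × ℕ)
  | some a => a.1
  | Option.none => []

theorem T.word_of {r : ℕ} {w : List (ℕ × ℕ)} (h : Fac r w) : (T.of r w h).word = w := rfl

theorem T.pe_eq {r : ℕ} (v : ℕ → T r) (p : List ℕ) : ∀ (w : List (ℕ × ℕ)) (h : Fac r w),
    pe (T.of r [] (fac_nil r)) v p = T.of r w h ↔
      (∀ x ∈ p, v x ≠ T.none r) ∧ p.flatMap (fun x => (v x).word) = w := by
  induction p with
  | nil =>
    intro w h
    simp only [pe, T.of_inj, List.flatMap_nil]
    constructor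
    · intro e; exact ⟨by simp, e⟩
    · intro e; exact e.2
  | cons x l ih =>
    intro w h
    simp only [pe, List.flatMap_cons]
    constructor
    · intro e
      obtain ⟨a, ha, b, hb, h1, h2, h3⟩ := T.mul_eq_of e
      obtain ⟨h4, h5⟩ := (ih b hb).1 h2
      refine ⟨?_, ?_⟩
      · intro y hy
        rcases List.mem_cons.1 hy with rfl | hy
        · rw [h1]; exact T.of_ne_none _ _ _
        · exact h4 y hy
      · rw [h5, h1, T.word_of, h3]
    · rintro ⟨h1, h2⟩
      rcases T.cases (v x) with h3 | ⟨a, ha, h3⟩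
      · exact absurd h3 (h1 x (by simp))
      · rw [h3, T.word_of] at h2
        have h4 : Fac r (l.flatMap fun x => (v x).word) := (fac_of_append (h2.symm ▸ h)).2
        rw [h3, (ih _ h4).2 ⟨fun y hy => h1 y (by simp [hy]), rfl⟩]
        have h5 : Fac r (a ++ l.flatMap fun x => (v x).word) := h2.symm ▸ h
        rw [T.mul_of h5, T.of_inj]
        exact h2

theorem T.le_iff {r : ℕ} {w : List (ℕ × ℕ)} {h : Fac r w} (y : T r) :
    T.of r w h + y = T.of r w h ↔ y = T.of r w h := by
  rw [T.add_def]
  constructor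
  · intro e
    by_contra hne
    rw [if_neg fun h' => hne h'.symm] at e
    exact T.of_ne_none _ _ _ e.symm
  · intro e
    rw [if_pos e.symm]

theorem T.sat_half {n r : ℕ} (hr : 2 * n + 3 ≤ r) (s t : Term) (hn : s.vars.card ≤ n)
    (hst : ∀ v : ℕ → B21, s.eval v = t.eval v) (v : ℕ → T r) (w : List (ℕ × ℕ)) (hw : Fac r w)
    (h : s.eval v = T.of r w hw) : t.eval v = T.of r w hw := by
  have hT := T.aiSemiring r
  have h1 : ∀ p ∈ s.words, (∀ x ∈ p, v x ≠ T.none r) ∧ p.flatMap (fun x => (v x).word) = w := by
    intro p hp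
    have := eval_le hT (T.of r [] (fac_nil r)) T.one_mul T.mul_one v s p hp
    rw [h, T.le_iff] at this
    exact (T.pe_eq v p w hw).1 this
  obtain ⟨k, hk⟩ := hw
  have h2 : ∀ q ∈ t.words, pe (T.of r [] (fac_nil r)) v q = T.of r w ⟨k, hk⟩ := by
    intro q hq
    have H : Hyp s.words q := fun hh z hz =>
      hyp_gen B21.aiSemiring B21.one B21.one_mul B21.mul_one s t q hq hh (hst hh) z hz
    have h3 := key hr H s.words_ne_nil s.vars hn s.mem_vars w.length
      (fun x => (v x).word) k (fun p hp => by rw [(h1 p hp).2]; exact hk)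
    refine (T.pe_eq v q w ⟨k, hk⟩).2 ⟨?_, ?_⟩
    · intro x hx
      obtain ⟨p, hp, hxp⟩ := mem_of_hyp H x hx
      exact (h1 p hp).1 x hxp
    · rw [h3]; exact hk.symm
  have h4 := le_eval hT (T.of r [] (fac_nil r)) T.one_mul T.mul_one v t
    (T.of r [] (fac_nil r)) (T.of r [] (fac_nil r)) (T.of r w ⟨k, hk⟩) (by
      intro p hp
      rw [T.one_mul, T.mul_one, T.le_iff]
      exact h2 p hp)
  rw [T.one_mul, T.mul_one, T.le_iff] at h4
  exact h4

theorem T.sat {n r : ℕ} (hr : 2 * n + 3 ≤ r) (s t : Term) (hn : s.vars.card ≤ n)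
    (hn' : t.vars.card ≤ n) (hst : ∀ v : ℕ → B21, s.eval v = t.eval v) (v : ℕ → T r) :
    s.eval v = t.eval v := by
  rcases T.cases (s.eval v) with h | ⟨w, hw, h⟩
  · rcases T.cases (t.eval v) with h' | ⟨w', hw', h'⟩
    · rw [h, h']
    · exact absurd (h.symm.trans (T.sat_half hr t s hn' (fun v => (hst v).symm) v w' hw' h'))
        (fun e => T.of_ne_none _ _ _ e.symm)
  · rw [h, T.sat_half hr s t hn hst v w hw h]

/-- a finite generating set -/
def T.gens (r : ℕ) : Set (T r) :=
  {T.none r} ∪ {T.of r [] (fac_nil r)} ∪ {x | ∃ k, x = T.of r (seg r k 1) (fac_seg r k 1)}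

theorem T.gens_finite {r : ℕ} (hr : 2 ≤ r) : (T.gens r).Finite := by
  apply Set.Finite.union (Set.Finite.union (Set.finite_singleton _) (Set.finite_singleton _))
  apply Set.Finite.of_injOn (f := fun x : T r => x.word)
    (t := (fun u : ℕ × ℕ => [u]) '' (Set.Iio r ×ˢ Set.Iio r))
  · rintro x ⟨k, rfl⟩
    refine ⟨U r k, ⟨aa_lt hr k, Nat.mod_lt _ (by omega)⟩, ?_⟩
    simp [T.word_of, seg]
  · rintro x ⟨k, rfl⟩ y ⟨k', rfl⟩ h
    simp only [T.word_of] at h
    exact T.of_inj.2 h
  · exact Set.Finite.image _ (Set.Finite.prod (Set.finite_Iio r) (Set.finite_Iio r))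

theorem T.gen_all (r : ℕ) (x : T r) : Gen (T.gens r) x := by
  rcases T.cases x with rfl | ⟨w, hw, rfl⟩
  · exact Gen.base _ (Or.inl (Or.inl rfl))
  · obtain ⟨k, hk⟩ := id hw
    have key : ∀ m, Gen (T.gens r) (T.of r (seg r k m) (fac_seg r k m)) := by
      intro m
      induction m with
      | zero => 
        apply Gen.base
        refine Or.inl (Or.inr ?_)
        show _ = _
        rw [T.of_inj, seg_zero]
      | succ m ih =>
        have h1 : Fac r (seg r k m ++ seg r (k + m) 1) := by
          rw [← seg_add]; exact fac_seg r k (m + 1)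
        have h2 := Gen.mul _ _ ih (Gen.base (T.of r (seg r (k + m) 1) (fac_seg r (k + m) 1))
          (Or.inr ⟨k + m, rfl⟩))
        rw [T.mul_of h1] at h2
        have h3 : T.of r (seg r k (m + 1)) (fac_seg r k (m + 1)) =
            T.of r (seg r k m ++ seg r (k + m) 1) h1 := by
          rw [T.of_inj, seg_add]
        rw [h3]
        exact h2
    have h4 : T.of r w hw = T.of r (seg r k w.length) (fac_seg r k w.length) := by
      rw [T.of_inj]; exact hk
    rw [h4]
    exact key _

theorem T.not_locallyFinite {r : ℕ} (hr : 2 ≤ r) : ¬ LocallyFinite (T r) := by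
  intro h
  have h1 := h (T.gens r) (T.gens_finite hr)
  have h2 : {x | Gen (T.gens r) x} = Set.univ := by
    ext x
    simp [T.gen_all]
  rw [h2] at h1
  have h3 : Function.Injective fun m : ℕ => T.of r (seg r 0 m) (fac_seg r 0 m) := by
    intro m m' e
    have e1 : seg r 0 m = seg r 0 m' := T.of_inj.1 e
    simpa using congrArg List.length e1
  exact Set.infinite_univ_iff.2 (Infinite.of_injective _ h3) h1

/-- **Every finite set of identities of `B_2^1` has a finitely generated infinite model which is an
additively idempotent semiring.** -/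
theorem main (E : Set Identity) (hE : E.Finite) (hB : Sat B21 E) :
    ∃ (A : Type) (_ : Add A) (_ : Mul A), AiSemiring A ∧ Sat A E ∧ ¬ LocallyFinite A := by
  classical
  set n : ℕ := hE.toFinset.sup fun e => e.1.vars.card + e.2.vars.card with hn
  have hle : ∀ e ∈ E, e.1.vars.card + e.2.vars.card ≤ n := by
    intro e he
    exact Finset.le_sup (f := fun e : Identity => e.1.vars.card + e.2.vars.card)
      (hE.mem_toFinset.2 he)
  refine ⟨T (2 * n + 3), inferInstance, inferInstance, T.aiSemiring _, ?_,
    T.not_locallyFinite (by omega)⟩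
  intro e he v
  have := hle e he
  exact T.sat (le_refl _) e.1 e.2 (by omega) (by omega) (hB e he) v

end Pool.Agent.Q15.BM
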